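import Pool.Agent.Helper21.FX.StF

/-!
# Module MD3 of project FX: `ℂ[a, b, t] / (ν)` is `ℂ[t][b]` with a square root of `2 b + t b²`
-/

set_option autoImplicit false

namespace Pool.Agent.Helper88.FX

open Pool.Agent.Helper72.FX Pool.Agent.Helper21.FX
open Polynomial

noncomputable section

/-- `X² - c` -/
private abbrev pp : ℂ[X][X][X] := X ^ 2 - C cpar

/-- the map `ℂ[t] → ℂ[a, b, t]` -/
private def s1 : ℂ[X] →+* P3 := Polynomial.eval₂RingHom MvPolynomial.C (MvPolynomial.X 2)

/-- the map `ℂ[t][b] → ℂ[a, b, t]` -/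
private def s2 : ℂ[X][X] →+* P3 := Polynomial.eval₂RingHom s1 (MvPolynomial.X 1)

/-- the map `ℂ[t][b][a] → ℂ[a, b, t]` -/
private def s3 : ℂ[X][X][X] →+* P3 := Polynomial.eval₂RingHom s2 (MvPolynomial.X 0)

private def ph : P3 →+* Apar :=
  MvPolynomial.eval₂Hom ((AdjoinRoot.of pp).comp (C.comp C))
    ![AdjoinRoot.root pp, AdjoinRoot.of pp X, AdjoinRoot.of pp (C X)]

private theorem ph0 : ph (MvPolynomial.X 0) = AdjoinRoot.root pp := by
  simp [ph]

private theorem ph1 : ph (MvPolynomial.X 1) = AdjoinRoot.of pp X := by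
  simp [ph]

private theorem ph2 : ph (MvPolynomial.X 2) = AdjoinRoot.of pp (C X) := by
  simp [ph]

private theorem phC (z : ℂ) : ph (MvPolynomial.C z) = AdjoinRoot.of pp (C (C z)) := by
  simp [ph]

private theorem s1C (z : ℂ) : s1 (C z) = MvPolynomial.C z := by
  simp [s1]

private theorem s1X : s1 X = MvPolynomial.X 2 := by
  simp [s1]

private theorem s2C (r : ℂ[X]) : s2 (C r) = s1 r := by
  simp [s2]

private theorem s2X : s2 X = MvPolynomial.X 1 := by
  simp [s2]

private theorem s3C (r : ℂ[X][X]) : s3 (C r) = s2 r := by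
  simp [s3]

private theorem s3X : s3 X = MvPolynomial.X 0 := by
  simp [s3]

private theorem comp3 : ph.comp s3 = AdjoinRoot.mk pp := by
  apply Polynomial.ringHom_ext'
  · apply Polynomial.ringHom_ext'
    · apply Polynomial.ringHom_ext'
      · ext z
        simp only [RingHom.comp_apply, s3C, s2C, s1C, phC]
        rfl
      · simp only [RingHom.comp_apply, s3C, s2C, s1X, ph2]
        rfl
    · simp only [RingHom.comp_apply, s3C, s2X, ph1]
      rfl
  · simp only [RingHom.comp_apply, s3X, ph0]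
    rfl

private theorem s3_pp : s3 pp = -nu3 := by
  have h2 : s1 2 = 2 := map_ofNat s1 2
  have h3 : s3 pp = s3 (X ^ 2) - s3 (C cpar) := map_sub s3 (X ^ 2) (C cpar)
  rw [h3, map_pow, s3X, s3C]
  unfold cpar
  rw [map_add, map_mul, map_mul, map_pow, s2C, s2C, s2X, s1X, h2]
  unfold nu3 nu
  ring

private theorem s3_surj : Function.Surjective s3 := by
  intro f
  induction f using MvPolynomial.induction_on with
  | C z => exact ⟨C (C (C z)), by rw [s3C, s2C, s1C]⟩
  | add p q hp hq =>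
    obtain ⟨p', rfl⟩ := hp
    obtain ⟨q', rfl⟩ := hq
    exact ⟨p' + q', map_add _ _ _⟩
  | mul_X p i hp =>
    obtain ⟨p', rfl⟩ := hp
    fin_cases i
    · exact ⟨p' * X, by rw [map_mul, s3X]; rfl⟩
    · exact ⟨p' * C X, by rw [map_mul, s3C, s2X]; rfl⟩
    · exact ⟨p' * C (C X), by rw [map_mul, s3C, s2C, s1X]; rfl⟩

theorem hMD3 : StMD3 := by
  refine ⟨ph, ?_, ?_, ph0, ph1, ph2, phC⟩
  · intro x
    obtain ⟨p, rfl⟩ := AdjoinRoot.mk_surjective x
    exact ⟨s3 p, by rw [← RingHom.comp_apply, comp3]⟩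
  · apply le_antisymm
    · intro f hf
      rw [RingHom.mem_ker] at hf
      obtain ⟨p, rfl⟩ := s3_surj f
      rw [← RingHom.comp_apply, comp3] at hf
      obtain ⟨q, rfl⟩ := AdjoinRoot.mk_eq_zero.1 hf
      rw [map_mul, s3_pp]
      exact Ideal.mem_span_singleton.2 ⟨-s3 q, by ring⟩
    · rw [Ideal.span_le, Set.singleton_subset_iff]
      show ph nu3 = 0
      have h1 : nu3 = -s3 pp := by rw [s3_pp, neg_neg]
      rw [h1, map_neg, ← RingHom.comp_apply, comp3, AdjoinRoot.mk_self, neg_zero]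

end

end Pool.Agent.Helper88.FX
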