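import Pool.Agent.Helper84.FX.StX

/-!
# Module T5 of project FX: the inclusion of `W_G` in `W` is a weak equivalence
-/

set_option autoImplicit false

namespace Pool.Agent.Helper88.FX

open Set Pool.Agent.Helper84.FX Pool.Agent.Helper72.FX

theorem hT5 : StDGW → StT5A → StT5B → StCMP → StCN3 → StCGR → StDMP → StT5 := by
  intro hDGW hT5A hT5B hCMP hCN3 _ _ U hU
  have h1 : WE (DM (N1G U) (N2G U)) (WW U) (Prod.fst ∘ id) :=
    hCMP _ _ _ _ _ _ _ _ (hDGW U) (hT5B U hU)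
  exact hCN3 _ _ _ (DM (N1G U) (N2G U)) (WG U) (WW U) Prod.fst id
    ⟨continuousOn_id, fun z hz => hz.1⟩ (hT5A U hU) h1

end Pool.Agent.Helper88.FX
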